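import Pool.Agent.Helper43.GH.Bas

/-!
GH-M2: the kernel of `h` and its images span the space.
-/

set_option linter.unusedSectionVars false
set_option linter.unusedVariables false

open Matrix Module

namespace GH

open MH

variable {n : Type*} [Fintype n] [DecidableEq n] {L : Submodule ℂ (Matrix n n ℂ)} {h : Matrix n n ℂ}
  {E : ℝ → Matrix n n ℂ} {Λ : Finset ℝ}

section mid
variable {ι : Type*} [Fintype ι] [DecidableEq ι] {f : ι → Matrix n n ℂ}

/-- M2: by Un the subspace of the vectors as in Sp0 is L-stable -/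
theorem Gr.span0 (G : Gr L h E Λ) (F : Fam L f) (h4 : Four L E f) (U : Un L h E) : Sp0 L h E := by
  classical
  have hE0 : E 0 * E 0 = E 0 := by rw [G.spec.mul, if_pos rfl]
  have hh0 : h * E 0 = 0 := by rw [G.spec.h_mul, Complex.ofReal_zero, zero_smul]
  have h0h : E 0 * h = 0 := by rw [G.spec.mul_h, Complex.ofReal_zero, zero_smul]
  let W : Submodule ℂ (n → ℂ) :=
    { carrier := {v | E 0 *ᵥ v = 0 ∧ ∀ ν : ℝ, ν ≠ 0 → ∀ x ∈ Ld L h ν, E 0 *ᵥ (x *ᵥ v) = 0}
      add_mem' := by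
        rintro v w ⟨h1, h2⟩ ⟨h3, h5⟩
        refine ⟨by rw [mulVec_add, h1, h3, add_zero], fun ν hν x hx => ?_⟩
        rw [mulVec_add, mulVec_add, h2 ν hν x hx, h5 ν hν x hx, add_zero]
      zero_mem' := ⟨mulVec_zero _, fun ν hν x hx => by rw [mulVec_zero, mulVec_zero]⟩
      smul_mem' := by
        rintro c v ⟨h1, h2⟩
        refine ⟨by rw [mulVec_smul, h1, smul_zero], fun ν hν x hx => ?_⟩
        rw [mulVec_smul, mulVec_smul, h2 ν hν x hx, smul_zero] }
  have hWmem : ∀ v, v ∈ W ↔ E 0 *ᵥ v = 0 ∧ ∀ ν : ℝ, ν ≠ 0 → ∀ x ∈ Ld L h ν, E 0 *ᵥ (x *ᵥ v) = 0 :=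
    fun v => Iff.rfl
  -- homogeneous elements
  have hhom : ∀ (μ : ℝ), ∀ y ∈ Ld L h μ, ∀ v ∈ W, y *ᵥ v ∈ W := by
    intro μ y hy v hv
    rw [hWmem] at hv
    obtain ⟨h1, h2⟩ := hv
    rw [hWmem]
    refine ⟨?_, fun ν hν x hx => ?_⟩
    · by_cases hμ : μ = 0
      · subst hμ
        rw [mulVec_mulVec, G.E0_comm hy, ← mulVec_mulVec, h1, mulVec_zero]
      · exact h2 μ hμ y hy
    · have hx' : x * E 0 + E 0 * x ∈ Ld L h ν := by
        refine ⟨U ν hν x hx, ?_⟩
        have e1 : h * x - x * h = (ν : ℂ) • x := hx.2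
        have e2 : h * (x * E 0 + E 0 * x) - (x * E 0 + E 0 * x) * h =
            (h * x - x * h) * E 0 + E 0 * (h * x - x * h) + (x * (h * E 0) + (h * E 0) * x)
              - (x * (E 0 * h) + (E 0 * h) * x) := by
          noncomm_ring
        rw [e2, hh0, h0h, e1]
        simp only [mul_zero, zero_mul, add_zero, sub_zero, smul_mul_assoc, mul_smul_comm, smul_add]
      have hx'v : (x * E 0 + E 0 * x) *ᵥ v = 0 := by
        rw [add_mulVec, ← mulVec_mulVec, ← mulVec_mulVec, h1, mulVec_zero, h2 ν hν x hx, add_zero]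
      have hE0x : E 0 * (x * E 0 + E 0 * x) = E 0 * x := by
        rw [mul_add, ← mul_assoc, G.EE hν hx, zero_add, ← mul_assoc, hE0]
      have hbr := G.br_Ld hx' hy
      have e3 : E 0 *ᵥ (x *ᵥ (y *ᵥ v)) =
          E 0 *ᵥ (((x * E 0 + E 0 * x) * y - y * (x * E 0 + E 0 * x)) *ᵥ v) := by
        have e4 : (y * (x * E 0 + E 0 * x)) *ᵥ v = 0 := by
          rw [← mulVec_mulVec, hx'v, mulVec_zero]
        rw [sub_mulVec, e4, sub_zero, mulVec_mulVec, mulVec_mulVec, mulVec_mulVec, ← mul_assoc,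
          hE0x, mul_assoc]
      rw [e3]
      by_cases hνμ : ν + μ = 0
      · rw [hνμ] at hbr
        rw [mulVec_mulVec, G.E0_comm hbr, ← mulVec_mulVec, h1, mulVec_zero]
      · exact h2 _ hνμ _ hbr
  have hstab : ∀ x ∈ L, ∀ v ∈ W, x *ᵥ v ∈ W := by
    intro x hx v hv
    rw [G.spec.sum_cmp x]
    have e1 : (∑ ν ∈ (Λ ×ˢ Λ).image (fun p => p.1 - p.2), cmp E Λ ν x) *ᵥ v =
        ∑ ν ∈ (Λ ×ˢ Λ).image (fun p => p.1 - p.2), cmp E Λ ν x *ᵥ v :=
      Matrix.sum_mulVec _ _ _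
    rw [e1]
    exact W.sum_mem fun ν _ => hhom ν _ (G.cmp_mem_Ld hx ν) v hv
  obtain ⟨I, hI⟩ := F.sub G W hstab
  have hIe : I = ∅ := by
    by_contra hne
    obtain ⟨i, hi⟩ := Finset.nonempty_of_ne_empty hne
    have h5 : ∀ v : n → ℂ, f i *ᵥ v ∈ W := by
      intro v
      rw [hI, mulVec_mulVec, Finset.sum_mul, Finset.sum_eq_single i]
      · rw [F.mul, if_pos rfl]
      · intro j _ hj
        rw [F.mul, if_neg hj]
      · intro h
        exact absurd hi h
    have h6 : E 0 * f i = 0 := by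
      apply Matrix.ext_of_mulVec_single
      intro j
      rw [← mulVec_mulVec, zero_mulVec]
      exact ((hWmem _).mp (h5 _)).1
    have h7 : f i * E 0 = 0 := by
      have := congrArg conjTranspose h6
      rwa [conjTranspose_mul, F.star, G.spec.star, conjTranspose_zero] at this
    have h8 : (KK L E).map (LinearMap.mulLeft ℂ (f i)) = ⊥ := by
      rw [eq_bot_iff]
      rintro _ ⟨z, hz, rfl⟩
      rw [Submodule.mem_bot]
      change f i * z = 0
      have h9 : E 0 * z * E 0 = z := hz.2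
      rw [← h9, ← mul_assoc, ← mul_assoc, h7, zero_mul, zero_mul]
    have h9 := h4 i
    rw [h8, finrank_bot] at h9
    omega
  intro v h1 h2
  have h3 : v ∈ W := (hWmem v).mpr ⟨h1, h2⟩
  rw [hI, hIe, Finset.sum_empty, zero_mulVec] at h3
  exact h3.symm

end mid

end GH
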